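import Mathlib
import Pool.Agent.Helper87.HB.Main

/-! Own statement beside `S19325`: critical probability of hypercube bootstrap percolation for all
thresholds `r` with `(log n)^2 ≪ r ≪ n`, in the literal form of the problem file. -/

set_option autoImplicit false

namespace Pool.Agent.Helper31.OWN

open Filter Asymptotics MeasureTheory ProbabilityTheory
open Pool.Agent.Helper87.HB

/-- One step of `r`-neighbour bootstrap percolation on the hypercube `{0,1}^n`. -/
def infect (n r : ℕ) (A : Set (Fin n → Bool)) : Set (Fin n → Bool) :=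
  A ∪ {v | r ≤ {u ∈ A | hammingDist u v = 1}.ncard}

/-- The initially infected set `A` percolates. -/
def Percolates (n r : ℕ) (A : Set (Fin n → Bool)) : Prop :=
  ⋃ i : ℕ, (infect n r)^[i] A = Set.univ

/-- The critical probability. -/
noncomputable def pc (n r : ℕ) : ℝ :=
  sInf {x : ℝ | ∃ p : unitInterval, (p : ℝ) = x ∧
    1 / 2 ≤ (setBernoulli (Set.univ : Set (Fin n → Bool)) p).real {A | Percolates n r A}}

lemma ncard_eq (n : ℕ) (S : Finset (Fin n → Bool)) (v : Fin n → Bool) :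
    {u ∈ (S : Set (Fin n → Bool)) | hammingDist u v = 1}.ncard = dg S v := by
  classical
  rw [← card_filter_hammingDist, ← Set.ncard_coe_finset]
  congr 1
  ext u
  simp

lemma infect_mono {n r : ℕ} {A B : Set (Fin n → Bool)} (h : A ⊆ B) :
    infect n r A ⊆ infect n r B := by
  intro v hv
  rcases hv with hv | hv
  · exact Or.inl (h hv)
  · right
    refine le_trans hv (Set.ncard_le_ncard ?_ (Set.toFinite _))
    exact fun u hu => ⟨h hu.1, hu.2⟩

lemma subset_infect {n r : ℕ} (A : Set (Fin n → Bool)) : A ⊆ infect n r A :=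
  fun _ hv => Or.inl hv

lemma iter_mono {n r : ℕ} (A : Set (Fin n → Bool)) : Monotone (fun i => (infect n r)^[i] A) := by
  apply monotone_nat_of_le_succ
  intro i
  rw [Function.iterate_succ_apply']
  exact subset_infect _

lemma percolates_iff {n r : ℕ} (A : Finset (Fin n → Bool)) :
    Percolates n r (A : Set (Fin n → Bool)) ↔ Perc (r : ℝ) A := by
  classical
  constructor
  · intro h S hAS hS
    have key : ∀ i : ℕ, (infect n r)^[i] (A : Set (Fin n → Bool)) ⊆ (S : Set (Fin n → Bool)) := by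
      intro i
      induction i with
      | zero => simpa using hAS
      | succ i ih =>
        rw [Function.iterate_succ_apply']
        intro v hv
        rcases hv with hv | hv
        · exact ih hv
        · have h1 : r ≤ dg S v := by
            rw [← ncard_eq]
            refine le_trans hv (Set.ncard_le_ncard ?_ (Set.toFinite _))
            exact fun u hu => ⟨ih hu.1, hu.2⟩
          exact hS v (by exact_mod_cast h1)
    apply Finset.eq_univ_of_forall
    intro v
    have hv : v ∈ ⋃ i : ℕ, (infect n r)^[i] (A : Set (Fin n → Bool)) := by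
      rw [show (⋃ i : ℕ, (infect n r)^[i] (A : Set (Fin n → Bool))) = Set.univ from h]
      trivial
    obtain ⟨i, hi⟩ := Set.mem_iUnion.1 hv
    exact key i hi
  · intro h
    set U : Set (Fin n → Bool) := ⋃ i : ℕ, (infect n r)^[i] (A : Set (Fin n → Bool)) with hU
    have hfin : U.Finite := Set.toFinite _
    have hS := h hfin.toFinset (by
      intro v hv
      rw [Set.Finite.mem_toFinset]
      exact Set.mem_iUnion.2 ⟨0, by simpa using hv⟩) (by
      intro v hv
      rw [Set.Finite.mem_toFinset]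
      have hv' : r ≤ dg hfin.toFinset v := by exact_mod_cast hv
      rw [← ncard_eq] at hv'
      have hex : ∃ i : ℕ, ∀ u ∈ U, u ∈ (infect n r)^[i] (A : Set (Fin n → Bool)) := by
        have h1 : ∀ u : Fin n → Bool, ∃ i : ℕ, u ∈ U →
            u ∈ (infect n r)^[i] (A : Set (Fin n → Bool)) := by
          intro u
          by_cases hu : u ∈ U
          · obtain ⟨i, hi⟩ := Set.mem_iUnion.1 hu
            exact ⟨i, fun _ => hi⟩
          · exact ⟨0, fun h => absurd h hu⟩
        choose f hf using h1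
        refine ⟨Finset.univ.sup f, fun u hu => ?_⟩
        exact iter_mono _ (Finset.le_sup (Finset.mem_univ u)) (hf u hu)
      obtain ⟨i, hi⟩ := hex
      refine Set.mem_iUnion.2 ⟨i + 1, ?_⟩
      rw [Function.iterate_succ_apply']
      right
      refine le_trans hv' (Set.ncard_le_ncard ?_ (Set.toFinite _))
      intro u hu
      exact ⟨hi u (by simpa using hu.1), hu.2⟩)
    have : (hfin.toFinset : Set (Fin n → Bool)) = Set.univ := by rw [hS]; simp
    rw [Set.Finite.coe_toFinset] at this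
    exact this

lemma prob_eq (n r : ℕ) (p : unitInterval) :
    (setBernoulli (Set.univ : Set (Fin n → Bool)) p).real {A | Percolates n r A}
      = pperc n (r : ℝ) p := by
  classical
  have hset : {A : Set (Fin n → Bool) | Percolates n r A} =
      ⋃ A ∈ (Finset.univ : Finset (Finset (Fin n → Bool))).filter (fun A => Perc (r : ℝ) A),
        {(A : Set (Fin n → Bool))} := by
    ext B
    simp only [Set.mem_ofPred_eq, Set.mem_iUnion, Finset.mem_filter, Finset.mem_univ, true_and,
      Set.mem_singleton_iff, exists_prop]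
    constructor
    · intro h
      refine ⟨(Set.toFinite B).toFinset, ?_, (Set.Finite.coe_toFinset _).symm⟩
      rw [← percolates_iff, Set.Finite.coe_toFinset]
      exact h
    · rintro ⟨A, hA, rfl⟩
      exact (percolates_iff A).2 hA
  rw [hset, measureReal_biUnion_finset]
  · unfold pperc
    apply Finset.sum_congr rfl
    intro A _
    rw [setBernoulli_real_singleton p (Set.subset_univ _) (Set.toFinite _)]
    unfold mu
    have h1 : (Set.univ \ (A : Set (Fin n → Bool))).ncard = 2 ^ n - A.card := by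
      rw [Set.ncard_sdiff (Set.subset_univ _) (Set.toFinite _), Set.ncard_univ, Set.ncard_coe_finset]
      simp
    rw [h1, Set.ncard_coe_finset]
  · intro A _ B _ hAB
    simp only [Function.onFun, Set.disjoint_singleton]
    exact fun h => hAB (Finset.coe_injective h)
  · intro A _
    exact measurableSet_singleton _

lemma pc_eq (n r : ℕ) : pc n r =
    sInf {p : ℝ | 0 ≤ p ∧ p ≤ 1 ∧ (1 / 2 : ℝ) ≤ pperc n (r : ℝ) p} := by
  unfold pc
  congr 1
  ext x
  simp only [Set.mem_ofPred_eq]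
  constructor
  · rintro ⟨p, rfl, hp⟩
    rw [prob_eq] at hp
    exact ⟨p.2.1, p.2.2, hp⟩
  · rintro ⟨h0, h1, hp⟩
    refine ⟨⟨x, h0, h1⟩, rfl, ?_⟩
    rw [prob_eq]
    exact hp

/-- Eventual numerical inequalities. -/
lemma ev_conds {r : ℕ → ℕ}
    (h1 : (fun n : ℕ => (Real.log n) ^ 2) =o[atTop] (fun n => (r n : ℝ)))
    (h2 : (fun n : ℕ => (r n : ℝ)) =o[atTop] (fun n : ℕ => (n : ℝ)))
    {ε : ℝ} (hε : 0 < ε) (hε1 : ε ≤ 1) :
    ∀ᶠ n : ℕ in atTop, 10 ≤ n ∧ 24 * Real.log n ≤ ε * (r n : ℝ) ∧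
      144 * (Real.log n) ^ 2 ≤ ε ^ 2 * (r n : ℝ) ∧
      (∃ s : ℕ, 1 ≤ s ∧ 2 * s ≤ n ∧ 192 * Real.log n * n ≤ ε ^ 2 * s * (r n : ℝ)) ∧
      (1 + ε) * ((r n : ℝ) / n) ≤ 1 / 20 ∧
      8 * ((r n : ℝ) + 1) ≤ ε * n ∧ 256 ≤ ε ^ 2 * (r n : ℝ) ∧ (0 : ℝ) < r n := by
  have e1 := h1.def (c := ε ^ 2 / 1536) (by positivity)
  have e2 := h2.def (c := ε / 40) (by positivity)
  have e3 : ∀ᶠ n : ℕ in atTop, 16 / ε ≤ (n : ℝ) :=
    tendsto_natCast_atTop_atTop.eventually (eventually_ge_atTop _)
  filter_upwards [e1, e2, e3, eventually_ge_atTop 10] with n a1 a2 a3 a4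
  have hn10 : (10 : ℝ) ≤ n := by exact_mod_cast a4
  have hn0 : (0 : ℝ) < n := by linarith
  rw [Real.norm_of_nonneg (by positivity), Real.norm_of_nonneg (by positivity)] at a1 a2
  have hL1 : 1 ≤ Real.log n := by
    rw [Real.le_log_iff_exp_le hn0]
    have := Real.exp_one_lt_d9
    linarith
  have hLL : Real.log n ≤ (Real.log n) ^ 2 := by nlinarith
  have hr1 : 1 ≤ ε ^ 2 / 1536 * (r n : ℝ) := by nlinarith
  have hrpos : (0 : ℝ) < r n := by
    by_contra hcon
    have : ε ^ 2 / 1536 * (r n : ℝ) ≤ 0 :=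
      mul_nonpos_of_nonneg_of_nonpos (by positivity) (not_lt.1 hcon)
    linarith
  have hε2 : ε ^ 2 ≤ ε := by nlinarith
  have hεr : ε ^ 2 * (r n : ℝ) ≤ ε * (r n : ℝ) := mul_le_mul_of_nonneg_right hε2 hrpos.le
  have hq : 0 < ε ^ 2 * (r n : ℝ) := by positivity
  refine ⟨a4, by nlinarith, by nlinarith, ?_, ?_, ?_, by nlinarith, hrpos⟩
  · refine ⟨⌈192 * Real.log n * n / (ε ^ 2 * (r n : ℝ))⌉₊, ?_, ?_, ?_⟩
    · rw [Nat.one_le_ceil_iff]; positivity
    · have hc : (⌈192 * Real.log n * n / (ε ^ 2 * (r n : ℝ))⌉₊ : ℝ) <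
          192 * Real.log n * n / (ε ^ 2 * (r n : ℝ)) + 1 := Nat.ceil_lt_add_one (by positivity)
      have hb : 192 * Real.log n * n / (ε ^ 2 * (r n : ℝ)) ≤ n / 8 := by
        rw [div_le_div_iff₀ hq (by norm_num)]
        have h4 : 1536 * Real.log n ≤ ε ^ 2 * (r n : ℝ) := by nlinarith
        have h5 := mul_le_mul_of_nonneg_right h4 hn0.le
        linarith
      have : (2 * ⌈192 * Real.log n * n / (ε ^ 2 * (r n : ℝ))⌉₊ : ℝ) ≤ n := by linarith
      exact_mod_cast this
    · have hc : 192 * Real.log n * n / (ε ^ 2 * (r n : ℝ)) ≤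
          (⌈192 * Real.log n * n / (ε ^ 2 * (r n : ℝ))⌉₊ : ℝ) := Nat.le_ceil _
      rw [div_le_iff₀ hq] at hc
      linarith
  · have h3 : (r n : ℝ) / n ≤ ε / 40 := by
      rw [div_le_iff₀ hn0]; linarith
    have h4 : 0 ≤ (r n : ℝ) / n := by positivity
    nlinarith
  · rw [div_le_iff₀ hε] at a3
    nlinarith

/-- The general asymptotic statement. -/
theorem main_general {r : ℕ → ℕ}
    (h1 : (fun n : ℕ => (Real.log n) ^ 2) =o[atTop] (fun n => (r n : ℝ)))
    (h2 : (fun n : ℕ => (r n : ℝ)) =o[atTop] (fun n : ℕ => (n : ℝ))) :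
    Tendsto (fun n : ℕ => pc n (r n) / ((r n : ℝ) / n)) atTop (nhds 1) := by
  rw [Metric.tendsto_atTop']
  intro δ hδ
  set ε := min (δ / 2) 1 with hεdef
  have hε : 0 < ε := by positivity
  have hε1 : ε ≤ 1 := min_le_right _ _
  have hεδ : ε ≤ δ / 2 := min_le_left _ _
  obtain ⟨N, hN⟩ := eventually_atTop.1 (ev_conds h1 h2 hε hε1)
  refine ⟨N, fun n hn => ?_⟩
  obtain ⟨h10, hc1, hc2, ⟨s, hc3, hc4, hc5⟩, hc6, hc7, hc8, hr⟩ := hN n hn.le
  have hnr : (10 : ℝ) ≤ n := by exact_mod_cast h10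
  have hnpos : (0 : ℝ) < n := by linarith
  have hq : 0 < (r n : ℝ) / n := by positivity
  have hqr : (r n : ℝ) / n * n = r n := by field_simp
  rw [pc_eq]
  set P := {p : ℝ | 0 ≤ p ∧ p ≤ 1 ∧ (1 / 2 : ℝ) ≤ pperc n ((r n : ℕ) : ℝ) p} with hP
  have hbdd : BddBelow P := ⟨0, fun p hp => hp.1⟩
  have hne : P.Nonempty := ⟨1, by norm_num, le_refl _, pperc_one n _⟩
  have hup : sInf P ≤ (1 + ε) * ((r n : ℝ) / n) := by
    apply csInf_le hbdd
    refine ⟨by positivity, by linarith, ?_⟩
    exact supercritical (by positivity) (by linarith) hε hε1 hr hc7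
      (by rw [mul_assoc, hqr]) hc8 (by omega)
  have hlo : (1 - ε) * ((r n : ℝ) / n) ≤ sInf P := by
    apply le_csInf hne
    rintro p ⟨hp0, hp1, hp⟩
    by_contra hcon
    push Not at hcon
    have hp20 : p ≤ 1 / 20 := by nlinarith
    have := subcritical (L := Real.log n) hp0 hp20 hε hε1 h10 rfl hr.le hc1 hc2 hc3 hc4 hc5 (by
      have := mul_le_mul_of_nonneg_right hcon.le hnpos.le
      rw [mul_assoc, hqr] at this
      exact this)
    unfold pperc at hp
    linarith
  rw [Real.dist_eq, abs_lt]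
  constructor
  · have : 1 - ε ≤ sInf P / ((r n : ℝ) / n) := by
      rw [le_div_iff₀ hq]; exact hlo
    linarith
  · have : sInf P / ((r n : ℝ) / n) ≤ 1 + ε := by
      rw [div_le_iff₀ hq]; exact hup
    linarith

/-- The asked range. -/
theorem main_pow {a : ℝ} (ha : 0 < a) (ha1 : a < 1) :
    Tendsto (fun n : ℕ => pc n ⌈(n : ℝ) ^ a⌉₊ / (n : ℝ) ^ (a - 1)) atTop (nhds 1) := by
  have hceil : Tendsto (fun n : ℕ => (⌈(n : ℝ) ^ a⌉₊ : ℝ) / (n : ℝ) ^ a) atTop (nhds 1) := by
    have h : Tendsto (fun x : ℝ => (⌈x⌉₊ : ℝ) / x) atTop (nhds 1) := tendsto_nat_ceil_div_atTop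
    exact h.comp ((tendsto_rpow_atTop ha).comp tendsto_natCast_atTop_atTop)
  have hO : (fun n : ℕ => (⌈(n : ℝ) ^ a⌉₊ : ℝ)) ~[atTop] (fun n : ℕ => (n : ℝ) ^ a) := by
    refine (isEquivalent_iff_tendsto_one ?_).2 hceil
    filter_upwards [eventually_gt_atTop 0] with n hn
    have : (0 : ℝ) < n := by exact_mod_cast hn
    positivity
  have h1 : (fun n : ℕ => (Real.log n) ^ 2) =o[atTop] (fun n : ℕ => (⌈(n : ℝ) ^ a⌉₊ : ℝ)) := by
    have h : (fun x : ℝ => (Real.log x) ^ 2) =o[atTop] (fun x : ℝ => x ^ a) := by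
      have h' := (isLittleO_log_rpow_atTop (r := a / 2) (by positivity)).pow (n := 2) (by norm_num)
      refine h'.congr' (Eventually.of_forall fun x => rfl) ?_
      filter_upwards [eventually_gt_atTop 0] with x hx
      rw [← Real.rpow_natCast, ← Real.rpow_mul hx.le]
      congr 1; push_cast; ring
    exact (h.comp_tendsto tendsto_natCast_atTop_atTop).trans_isBigO hO.symm.isBigO
  have h2 : (fun n : ℕ => (⌈(n : ℝ) ^ a⌉₊ : ℝ)) =o[atTop] (fun n : ℕ => (n : ℝ)) := by
    have h : (fun x : ℝ => x ^ a) =o[atTop] (fun x : ℝ => x ^ (1 : ℝ)) := by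
      refine (isLittleO_iff_tendsto' ?_).2 ?_
      · filter_upwards [eventually_gt_atTop 0] with x hx h
        rw [Real.rpow_one] at h
        linarith
      · refine (tendsto_rpow_neg_atTop (y := 1 - a) (by linarith)).congr' ?_
        filter_upwards [eventually_gt_atTop 0] with x hx
        rw [← Real.rpow_sub hx]
        congr 1
        ring
    have h' := h.comp_tendsto tendsto_natCast_atTop_atTop
    have h3 : (fun n : ℕ => (n : ℝ) ^ a) =o[atTop] (fun n : ℕ => (n : ℝ)) := by
      refine h'.congr (fun n => rfl) (fun n => ?_)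
      simp
    exact hO.isBigO.trans_isLittleO h3
  have h3 := main_general h1 h2
  have h4 := h3.mul hceil
  rw [one_mul] at h4
  refine h4.congr' ?_
  filter_upwards [eventually_gt_atTop 0] with n hn
  have hn0 : (0 : ℝ) < n := by exact_mod_cast hn
  have hna : (0 : ℝ) < (n : ℝ) ^ a := by positivity
  have hc : (0 : ℝ) < (⌈(n : ℝ) ^ a⌉₊ : ℝ) := lt_of_lt_of_le hna (Nat.le_ceil _)
  rw [Real.rpow_sub_one hn0.ne']
  field_simp

end Pool.Agent.Helper31.OWN
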