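import Pool.Agent.Helper35.KoolenYangC

set_option autoImplicit false

/-!
Connected graphs with smallest eigenvalue in `[-3, -2)` on `48 c ^ 2 + 22 c + 17` vertices which
are not `s`-integrable for any `1 ≤ s ≤ c`.
-/

namespace Pool.Agent.Helper31.OWN

open Finset Pool.Agent.Helper35.KoolenYang
open scoped Pointwise

theorem psd_iff {n : ℕ} (G : SimpleGraph (Fin n)) [DecidableRel G.Adj] (q : ℝ) :
    (G.adjMatrix ℝ + q • (1 : Matrix (Fin n) (Fin n) ℝ)).PosSemidef ↔
      ∀ μ ∈ spectrum ℝ (G.adjMatrix ℝ), -q ≤ μ := by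
  have hherm : (G.adjMatrix ℝ + q • (1 : Matrix (Fin n) (Fin n) ℝ)).IsHermitian := by
    rw [Matrix.IsHermitian, Matrix.conjTranspose_eq_transpose_of_trivial]
    ext a b
    simp only [Matrix.transpose_apply, Matrix.add_apply, Matrix.smul_apply,
      SimpleGraph.adjMatrix_apply, Matrix.one_apply, SimpleGraph.adj_comm G b a,
      eq_comm (a := b) (b := a)]
  have hspec : spectrum ℝ (G.adjMatrix ℝ + q • (1 : Matrix (Fin n) (Fin n) ℝ))
      = spectrum ℝ (G.adjMatrix ℝ) + ({q} : Set ℝ) := by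
    rw [← Algebra.algebraMap_eq_smul_one]
    exact (spectrum.add_singleton_eq (G.adjMatrix ℝ) q).symm
  rw [hherm.posSemidef_iff_eigenvalues_nonneg]
  have hr := hherm.spectrum_real_eq_range_eigenvalues
  rw [hspec] at hr
  constructor
  · intro h μ hμ
    have h1 : μ + q ∈ spectrum ℝ (G.adjMatrix ℝ) + ({q} : Set ℝ) :=
      Set.add_mem_add hμ (Set.mem_singleton q)
    rw [hr] at h1
    obtain ⟨i, hi⟩ := h1
    have h2 : (0 : ℝ) ≤ hherm.eigenvalues i := h i
    linarith
  · intro h i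
    have h1 : hherm.eigenvalues i ∈ spectrum ℝ (G.adjMatrix ℝ) + ({q} : Set ℝ) := by
      rw [hr]
      exact ⟨i, rfl⟩
    rw [Set.mem_add] at h1
    obtain ⟨μ, hμ, r, hr', h3⟩ := h1
    rw [Set.mem_singleton_iff] at hr'
    have h4 := h μ hμ
    change (0 : ℝ) ≤ hherm.eigenvalues i
    linarith

theorem lambdaMin_bounds {n : ℕ} (G : SimpleGraph (Fin n)) [DecidableRel G.Adj]
    (h3 : (G.adjMatrix ℝ + (3 : ℝ) • (1 : Matrix (Fin n) (Fin n) ℝ)).PosSemidef)
    (h2 : ¬ (G.adjMatrix ℝ + (2 : ℝ) • (1 : Matrix (Fin n) (Fin n) ℝ)).PosSemidef) :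
    -3 ≤ sInf (spectrum ℝ (G.adjMatrix ℝ)) ∧ sInf (spectrum ℝ (G.adjMatrix ℝ)) < -2 := by
  rw [psd_iff] at h3 h2
  push Not at h2
  obtain ⟨μ, hμ, hlt⟩ := h2
  constructor
  · exact le_csInf ⟨μ, hμ⟩ h3
  · exact lt_of_le_of_lt (csInf_le ⟨-3, h3⟩ hμ) hlt

theorem graph_connected (L m : ℕ) : (graph L m).Connected := by
  rw [SimpleGraph.connected_iff_exists_forall_reachable]
  refine ⟨Sum.inl (⟨0, by omega⟩, 0), ?_⟩
  have h0 : ∀ (i : ℕ) (hi : i < L + 1), (graph L m).Reachable (Sum.inl (⟨0, by omega⟩, 0))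
      (Sum.inl (⟨i, hi⟩, 0)) := by
    intro i
    induction i with
    | zero => intro hi; exact SimpleGraph.Reachable.refl _
    | succ i ih =>
      intro hi
      refine (ih (by omega)).trans (SimpleGraph.Adj.reachable ?_)
      exact Or.inr ⟨rfl, rfl, Or.inl rfl⟩
  rintro (⟨⟨i, hi⟩, t⟩ | k)
  · by_cases ht : t = 0
    · subst ht
      exact h0 i hi
    · refine (h0 i hi).trans (SimpleGraph.Adj.reachable ?_)
      exact Or.inl ⟨rfl, fun h => ht h.symm⟩
  · refine SimpleGraph.Adj.reachable ?_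
    exact ⟨rfl, Or.inl rfl⟩

/-- The length `2 c + 4` of the chain is large enough. -/
theorem length_bound (c : ℕ) (hc : 0 < c) :
    18 * (c * c) + 6 * c + 1 ≤ 2 ^ (2 * c + 4) := by
  induction c with
  | zero => omega
  | succ d ih =>
    rcases Nat.eq_zero_or_pos d with h | h
    · subst h; norm_num
    · have := ih h
      rw [show 2 * (d + 1) + 4 = (2 * d + 4) + 2 by ring, pow_add]
      nlinarith

/-- For every positive `c` there is a connected graph with `48 c ^ 2 + 22 c + 17` vertices and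
smallest eigenvalue in `[-3, -2)` which is not `s`-integrable for any `1 ≤ s ≤ c`. -/
theorem main_connected (c : ℕ) (hc : 0 < c) :
    ∃ (n : ℕ) (G : SimpleGraph (Fin n)) (_ : DecidableRel G.Adj),
      n = 48 * c ^ 2 + 22 * c + 17 ∧ G.Connected ∧
      -3 ≤ sInf (spectrum ℝ (G.adjMatrix ℝ)) ∧ sInf (spectrum ℝ (G.adjMatrix ℝ)) < -2 ∧
      ∀ s : ℕ, 0 < s → s ≤ c → ¬ ∃ (p : ℕ) (N : Matrix (Fin n) (Fin p) ℤ),
        (s : ℤ) • (G.adjMatrix ℤ - ⌊sInf (spectrum ℝ (G.adjMatrix ℝ))⌋ •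
          (1 : Matrix (Fin n) (Fin n) ℤ)) = N * N.transpose := by
  obtain ⟨m, hm⟩ : ∃ m, m = 48 * (c * c) + 16 * c + 2 := ⟨_, rfl⟩
  have hm0 : 0 < m := by omega
  obtain ⟨L, hLdef⟩ : ∃ L, L = 2 * c + 4 := ⟨_, rfl⟩
  have hL3 : 3 ≤ L := by omega
  have hL0 : 0 < L := by omega
  have hLe : Even L := ⟨c + 2, by omega⟩
  have hmL : 3 * m ≤ 8 * 2 ^ L + 2 := by
    have h1 := length_bound c hc
    rw [← hLdef] at h1
    nlinarith
  have hcard : Fintype.card (V L m) = 48 * c ^ 2 + 22 * c + 17 := by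
    rw [Fintype.card_sum, Fintype.card_prod, Fintype.card_fin, Fintype.card_fin,
      Fintype.card_fin, hm, hLdef]
    ring
  let e : V L m ≃ Fin (Fintype.card (V L m)) := Fintype.equivFin _
  let G : SimpleGraph (Fin (Fintype.card (V L m))) := (graph L m).comap e.symm
  let dec : DecidableRel G.Adj := Classical.decRel _
  have hsub : ∀ q : ℝ, G.adjMatrix ℝ + q • (1 : Matrix _ _ ℝ)
      = ((graph L m).adjMatrix ℝ + q • (1 : Matrix _ _ ℝ)).submatrix e.symm e.symm := by
    intro q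
    ext a b
    simp only [Matrix.add_apply, Matrix.smul_apply, Matrix.submatrix_apply,
      SimpleGraph.adjMatrix_apply, Matrix.one_apply, G, SimpleGraph.comap_adj,
      EmbeddingLike.apply_eq_iff_eq]
  have hform : ∀ (q : ℝ) (x : V L m → ℝ), star x ⬝ᵥ (((graph L m).adjMatrix ℝ
      + q • (1 : Matrix _ _ ℝ)).mulVec x) = ∑ v, ∑ w, x v * ent L m q v w * x w := by
    intro q x
    simp only [dotProduct, Matrix.mulVec, star_trivial, Finset.mul_sum, ent]
    refine Finset.sum_congr rfl fun v _ => Finset.sum_congr rfl fun w _ => ?_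
    ring
  have hherm : ∀ q : ℝ, ((graph L m).adjMatrix ℝ + q • (1 : Matrix _ _ ℝ)).IsHermitian := by
    intro q
    rw [Matrix.IsHermitian, Matrix.conjTranspose_eq_transpose_of_trivial]
    ext a b
    simp only [Matrix.transpose_apply, Matrix.add_apply, Matrix.smul_apply,
      SimpleGraph.adjMatrix_apply, Matrix.one_apply, SimpleGraph.adj_comm (graph L m) b a,
      eq_comm (a := b) (b := a)]
  have h3 : (G.adjMatrix ℝ + (3 : ℝ) • (1 : Matrix _ _ ℝ)).PosSemidef := by
    rw [hsub 3, Matrix.posSemidef_submatrix_equiv, Matrix.posSemidef_iff_dotProduct_mulVec]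
    refine ⟨hherm 3, fun x => ?_⟩
    rw [hform]
    exact form_nonneg L m hL0 hm0 hmL x
  have h2 : ¬ (G.adjMatrix ℝ + (2 : ℝ) • (1 : Matrix _ _ ℝ)).PosSemidef := by
    rw [hsub 2, Matrix.posSemidef_submatrix_equiv, Matrix.posSemidef_iff_dotProduct_mulVec]
    rintro ⟨-, h⟩
    obtain ⟨x, hx⟩ := form_neg L m hL3
    have := h x
    rw [hform] at this
    linarith
  have hb := lambdaMin_bounds G h3 h2
  have hfloor : ⌊sInf (spectrum ℝ (G.adjMatrix ℝ))⌋ = -3 := by
    rw [Int.floor_eq_iff]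
    constructor
    · push_cast
      exact hb.1
    · push_cast
      linarith [hb.2]
  refine ⟨_, G, dec, hcard, ?_, hb.1, hb.2, ?_⟩
  · exact (SimpleGraph.Iso.comap e.symm (graph L m)).connected_iff.mpr (graph_connected L m)
  · rintro s hs hsc ⟨p, N, hN⟩
    rw [hfloor] at hN
    have hms : 48 * (s * s) + 16 * s + 2 ≤ m := by
      rw [hm]
      have := Nat.mul_le_mul hsc hsc
      omega
    refine no_rep L m s p hL0 hLe hs hms (fun v j => N (e v) j) ?_
    intro v w
    have h1 := congrFun (congrFun hN (e v)) (e w)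
    simp only [Matrix.mul_apply, Matrix.transpose_apply, Matrix.smul_apply, Matrix.sub_apply,
      SimpleGraph.adjMatrix_apply, Matrix.one_apply, G, SimpleGraph.comap_adj,
      Equiv.symm_apply_apply, EmbeddingLike.apply_eq_iff_eq] at h1
    rw [← h1]
    simp only [ent, Matrix.add_apply, Matrix.smul_apply, SimpleGraph.adjMatrix_apply,
      Matrix.one_apply, smul_eq_mul]
    push_cast
    by_cases h2 : (graph L m).Adj v w <;> by_cases h3 : v = w <;> simp [h2, h3]

end Pool.Agent.Helper31.OWN
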