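import Pool.Agent.Helper79.Pyj.Main

set_option autoImplicit false

/-!
An explicit exponent for the pyjama problem: `N(ε) ≤ K ε^(-102)`, re-running the last step of
the proof in `Pool.Agent.Helper79.Pyj.Main` with sharper parameters.
-/

namespace Pyj

open Complex Finset Filter

theorem hsmall_num2 (t : ℕ) (ht : 400 ≤ t) (h1 : 2000 * t ^ 8 ≤ 2 ^ t)
    (h22 : 2 ^ 28 * t ^ 22 ≤ 2 ^ t) (P : Finset ℕ) (hPc : P.card = t ^ 6) :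
    (((2 ^ (3 * (t + 1)) * (124 * t ^ 8) : ℕ) : ℝ) +
      2 * (((2 ^ (9 * (t + 1)) + 1 + 2 ^ (3 * (t + 1)) * (124 * t ^ 8)) *
        (2 * (25 * t ^ 8 + 1) + 1) : ℕ) : ℝ) *
        ((2 * P.card : ℕ) : ℝ) * (4 * ((2 ^ (2 * t + 2) : ℕ) : ℝ))) *
      (1 / 2 ^ (20 * t) + ((26 * t ^ 8 : ℕ) : ℝ) / ((2 ^ (12 * t) : ℕ) : ℝ)) < 1 := by
  obtain ⟨f1, f2, f3, f4, f5, f6, f7, f8⟩ := pow_facts t ht
  rw [hPc]
  have a1 : 2 ^ (3 * (t + 1)) * (124 * t ^ 8) ≤ 2 ^ (9 * t) := by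
    calc 2 ^ (3 * (t + 1)) * (124 * t ^ 8) ≤ 2 ^ (3 * (t + 1)) * 2 ^ t :=
          Nat.mul_le_mul_left _ (by omega)
      _ = 2 ^ (3 * (t + 1) + t) := by rw [← pow_add]
      _ ≤ 2 ^ (9 * t) := Nat.pow_le_pow_right (by norm_num) (by omega)
  have b5 : 2 ^ (9 * (t + 1)) = 2 ^ (9 * t) * 512 := by
    rw [show 9 * (t + 1) = 9 * t + 9 by ring, pow_add]; norm_num
  have a2 : 2 ^ (9 * (t + 1)) + 1 + 2 ^ (3 * (t + 1)) * (124 * t ^ 8) ≤ 2 ^ (9 * t) * 1024 := by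
    have b4 : 1 ≤ 2 ^ (9 * t) := Nat.one_le_two_pow
    omega
  have a3 : 2 * (25 * t ^ 8 + 1) + 1 ≤ 64 * t ^ 8 := by omega
  have a5 : (2 ^ (9 * (t + 1)) + 1 + 2 ^ (3 * (t + 1)) * (124 * t ^ 8)) *
        (2 * (25 * t ^ 8 + 1) + 1) ≤ 2 ^ (9 * t) * 1024 * (64 * t ^ 8) := Nat.mul_le_mul a2 a3
  have a6 : 2 ^ (3 * (t + 1)) * (124 * t ^ 8) +
      2 * ((2 ^ (9 * (t + 1)) + 1 + 2 ^ (3 * (t + 1)) * (124 * t ^ 8)) *
        (2 * (25 * t ^ 8 + 1) + 1)) * (2 * t ^ 6) * (4 * 2 ^ (2 * t + 2))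
        ≤ 2 ^ (11 * t + 23) * t ^ 14 := by
    calc 2 ^ (3 * (t + 1)) * (124 * t ^ 8) +
      2 * ((2 ^ (9 * (t + 1)) + 1 + 2 ^ (3 * (t + 1)) * (124 * t ^ 8)) *
        (2 * (25 * t ^ 8 + 1) + 1)) * (2 * t ^ 6) * (4 * 2 ^ (2 * t + 2))
        ≤ 2 ^ (9 * t) + 2 * (2 ^ (9 * t) * 1024 * (64 * t ^ 8)) * (2 * t ^ 6) *
            (4 * 2 ^ (2 * t + 2)) := by
          gcongr
      _ = 2 ^ (9 * t) + 2 ^ (11 * t + 22) * t ^ 14 := by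
          have e1 : 2 * (2 ^ (9 * t) * 1024 * (64 * t ^ 8)) * (2 * t ^ 6) * (4 * 2 ^ (2 * t + 2))
              = 2 ^ (11 * t + 22) * t ^ 14 := by
            rw [show 11 * t + 22 = 9 * t + (2 * t + 2) + 20 by ring, pow_add, pow_add,
              show (2 : ℕ) ^ 20 = 1048576 by norm_num]
            ring
          rw [e1]
      _ ≤ 2 ^ (11 * t + 22) * t ^ 14 + 2 ^ (11 * t + 22) * t ^ 14 := by
          have c1 : 2 ^ (9 * t) ≤ 2 ^ (11 * t + 22) :=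
            Nat.pow_le_pow_right (by norm_num) (by omega)
          have c2 : 1 ≤ t ^ 14 := Nat.one_le_pow _ _ (by omega)
          have c3 : 2 ^ (11 * t + 22) * 1 ≤ 2 ^ (11 * t + 22) * t ^ 14 :=
            Nat.mul_le_mul_left _ c2
          omega
      _ = 2 ^ (11 * t + 23) * t ^ 14 := by
          rw [show 11 * t + 23 = 11 * t + 22 + 1 by ring, pow_succ 2 (11 * t + 22)]; ring
  have a7 : (((2 ^ (3 * (t + 1)) * (124 * t ^ 8) : ℕ) : ℝ) +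
      2 * (((2 ^ (9 * (t + 1)) + 1 + 2 ^ (3 * (t + 1)) * (124 * t ^ 8)) *
        (2 * (25 * t ^ 8 + 1) + 1) : ℕ) : ℝ) *
        ((2 * t ^ 6 : ℕ) : ℝ) * (4 * ((2 ^ (2 * t + 2) : ℕ) : ℝ)))
        ≤ 2 ^ (11 * t + 23) * (t : ℝ) ^ 14 := by
    exact_mod_cast a6
  have ht1 : (1 : ℝ) ≤ (t : ℝ) ^ 8 := by
    have : 1 ≤ t ^ 8 := Nat.one_le_pow _ _ (by omega)
    exact_mod_cast this
  have a8 : (1 / 2 ^ (20 * t) + ((26 * t ^ 8 : ℕ) : ℝ) / ((2 ^ (12 * t) : ℕ) : ℝ))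
      ≤ 27 * (t : ℝ) ^ 8 / 2 ^ (12 * t) := by
    have c1 : (1 : ℝ) / 2 ^ (20 * t) ≤ (t : ℝ) ^ 8 / 2 ^ (12 * t) := by
      have c2 : (2 : ℝ) ^ (12 * t) ≤ 2 ^ (20 * t) :=
        pow_le_pow_right₀ (by norm_num) (by omega)
      exact div_le_div₀ (by positivity) ht1 (by positivity) c2
    push_cast
    have c3 : 27 * (t : ℝ) ^ 8 / 2 ^ (12 * t)
        = (t : ℝ) ^ 8 / 2 ^ (12 * t) + 26 * (t : ℝ) ^ 8 / 2 ^ (12 * t) := by ring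
    rw [c3]
    linarith
  have a9 : (2 : ℝ) ^ 28 * (t : ℝ) ^ 22 ≤ 2 ^ t := by exact_mod_cast h22
  calc _ ≤ (2 : ℝ) ^ (11 * t + 23) * (t : ℝ) ^ 14 * (27 * (t : ℝ) ^ 8 / 2 ^ (12 * t)) := by
        apply mul_le_mul a7 a8 (by positivity) (by positivity)
    _ < 1 := by
        rw [mul_div_assoc', div_lt_one (by positivity)]
        have d1 : (2 : ℝ) ^ (12 * t) = 2 ^ (11 * t) * 2 ^ t := by rw [← pow_add]; congr 1; ring
        have d2 : (2 : ℝ) ^ (11 * t + 23) * (t : ℝ) ^ 14 * (27 * (t : ℝ) ^ 8)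
            = 2 ^ (11 * t) * (27 * 2 ^ 23 * (t : ℝ) ^ 22) := by rw [pow_add]; ring
        rw [d1, d2]
        have d3 : (0 : ℝ) < (t : ℝ) ^ 22 := by
          have : (0 : ℝ) < t := by
            have : 0 < t := by omega
            exact_mod_cast this
          positivity
        have d4 : 27 * 2 ^ 23 * (t : ℝ) ^ 22 < 2 ^ t := by
          refine lt_of_lt_of_le ?_ a9
          norm_num
          nlinarith
        exact mul_lt_mul_of_pos_left d4 (by positivity)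

theorem hmu_num2 (t : ℕ) (ht : 400 ≤ t)
    (h22 : 2 ^ 28 * t ^ 22 ≤ 2 ^ t) :
    (2 : ℝ) ^ (60 * (t + 1) + 1) * ((2 ^ (130 * t ^ 8) : ℕ) : ℝ) ^
        (2 ^ (9 * t + 11) * 2 ^ (12 * t))
      ≤ (1 / 2) ^ t * 2 ^ (2 ^ (22 * t)) := by
  obtain ⟨f1, f2, f3, f4, f5, f6, f7, f8⟩ := pow_facts t ht
  have h2 : ((1 : ℝ) / 2) ^ t = 1 / 2 ^ t := by rw [div_pow, one_pow]
  rw [h2, div_mul_eq_mul_div, one_mul, le_div_iff₀ (by positivity)]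
  push_cast
  rw [← pow_mul, ← pow_add, ← pow_add, ← pow_add]
  apply pow_le_pow_right₀ (by norm_num)
  have e1 : 2 ^ (22 * t) = 2 ^ t * 2 ^ (21 * t) := by
    rw [← pow_add]; congr 1; ring
  have e3 : 2 ^ (9 * t + 11 + 12 * t) = 2 ^ (21 * t) * 2048 := by
    rw [show 9 * t + 11 + 12 * t = 21 * t + 11 by ring, pow_add]; norm_num
  rw [e1, e3]
  have e2 : 1 ≤ 2 ^ (21 * t) := Nat.one_le_two_pow
  have e4 : 2 ^ 28 * t ^ 8 ≤ 2 ^ t := by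
    refine le_trans ?_ h22
    exact Nat.mul_le_mul_left _ (Nat.pow_le_pow_right (by omega) (by norm_num))
  calc 60 * (t + 1) + 1 + 130 * t ^ 8 * (2 ^ (21 * t) * 2048) + t
      ≤ (61 * t + 61) * 2 ^ (21 * t) + 130 * t ^ 8 * (2 ^ (21 * t) * 2048) := by
        nlinarith
    _ = (130 * 2048 * t ^ 8 + 61 * t + 61) * 2 ^ (21 * t) := by ring
    _ ≤ 2 ^ t * 2 ^ (21 * t) := Nat.mul_le_mul_right _ (by omega)

theorem cover_at (t : ℕ) (ht : 400 ≤ t) (h1 : 2000 * t ^ 8 ≤ 2 ^ t)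
    (h22 : 2 ^ 28 * t ^ 22 ≤ 2 ^ t)
    (hs : ∃ P : Finset ℕ, P.card = 11 * t ^ 7 + 2 ∧ ∀ p ∈ P, p.Prime ∧ p % 4 = 1 ∧ p ≤ 2 ^ t)
    (hb : ∃ P : Finset ℕ, P.card = t ^ 6 ∧
      ∀ p ∈ P, p.Prime ∧ p % 4 = 1 ∧ 2 ^ (t ^ 3) < p ∧ p ≤ 2 ^ (9 * t ^ 3)) :
    ∃ U : Finset ℂ, (∀ u ∈ U, ‖u‖ = 1) ∧ U.card ≤ 2 ^ (102 * t + 62) ∧
      ∀ z : ℂ, ∃ u ∈ U, Hit (2 * (1 / 2 : ℝ) ^ t) (z * u).re := by
  obtain ⟨f1, f2, f3, f4, f5, f6, f7, f8⟩ := pow_facts t ht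
  obtain ⟨P', hP'c, hP'⟩ := hs
  obtain ⟨P, hPc, hP⟩ := hb
  obtain ⟨H, hH⟩ : ∃ H : ℕ, H = ∏ p ∈ P', p := ⟨_, rfl⟩
  have hHpos : 1 ≤ H := by
    rw [hH]
    exact Finset.prod_pos fun p hp => (hP' p hp).1.pos
  have hHle : H ≤ 2 ^ (11 * t ^ 8 + 2 * t) := by
    rw [hH]
    calc ∏ p ∈ P', p ≤ ∏ _p ∈ P', 2 ^ t := Finset.prod_le_prod' fun p hp => (hP' p hp).2.2
      _ = (2 ^ t) ^ (11 * t ^ 7 + 2) := by rw [Finset.prod_const, hP'c]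
      _ = 2 ^ (11 * t ^ 8 + 2 * t) := by rw [← pow_mul]; congr 1; ring
  have hHk : ∀ k : ℕ, H ^ k ≤ 2 ^ ((11 * t ^ 8 + 2 * t) * k) := by
    intro k
    rw [pow_mul]
    exact Nat.pow_le_pow_left hHle k
  have hPprod : 2 ^ (t ^ 9) ≤ ∏ p ∈ P, p := by
    calc 2 ^ (t ^ 9) = (2 ^ (t ^ 3)) ^ (t ^ 6) := by rw [← pow_mul]; congr 1; ring
      _ = ∏ _p ∈ P, 2 ^ (t ^ 3) := by rw [Finset.prod_const, hPc]
      _ ≤ ∏ p ∈ P, p := Finset.prod_le_prod' fun p hp => (hP p hp).2.2.1.le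
  obtain ⟨U, hU1, hU2, hU3⟩ := core t (9 * t ^ 3) (60 * t ^ 8) (124 * t ^ 8) (25 * t ^ 8)
    (2 ^ (130 * t ^ 8)) (2 ^ (12 * t)) (2 ^ (22 * t)) (2 ^ (9 * t ^ 3)) (26 * t ^ 8) H
    (2 ^ (9 * t + 11)) P P' (by omega) Nat.one_le_two_pow le_rfl
    (fun p hp => ⟨(hP p hp).1, (hP p hp).2.1,
      lt_of_le_of_lt (Nat.pow_le_pow_right (by norm_num) f6) (hP p hp).2.2.1, (hP p hp).2.2.2⟩)
    (by
      have hb : ∀ p ∈ P, (8 : ℝ) / p ≤ 8 / 2 ^ (t ^ 3) := by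
        intro p hp
        have : ((2 ^ (t ^ 3) : ℕ) : ℝ) ≤ p := by exact_mod_cast (hP p hp).2.2.1.le
        push_cast at this
        gcongr
      calc ∑ p ∈ P, (8 : ℝ) / p ≤ ∑ _p ∈ P, (8 : ℝ) / 2 ^ (t ^ 3) := Finset.sum_le_sum hb
        _ = (t ^ 6 : ℕ) * (8 / 2 ^ (t ^ 3)) := by rw [Finset.sum_const, hPc, nsmul_eq_mul]
        _ ≤ 1 / 2 := by
          have h3 : 16 * t ^ 6 ≤ 2 ^ (t ^ 3) := by
            calc 16 * t ^ 6 ≤ 2 ^ t := by omega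
              _ ≤ 2 ^ (t ^ 3) := Nat.pow_le_pow_right (by norm_num) (by omega)
          have h4 : (16 : ℝ) * ((t ^ 6 : ℕ) : ℝ) ≤ 2 ^ (t ^ 3) := by exact_mod_cast h3
          rw [mul_div_assoc', div_le_div_iff₀ (by positivity) (by norm_num)]
          linarith)
    (fun p hp => ⟨(hP' p hp).1, (hP' p hp).2.1,
      (hP' p hp).2.2.trans (Nat.pow_le_pow_right (by norm_num) (by omega))⟩)
    (hcs_num t ht h1 P P' hPc hP'c) hH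
    (by
      calc 4 * H ^ 2 ≤ 4 * 2 ^ ((11 * t ^ 8 + 2 * t) * 2) := Nat.mul_le_mul_left _ (hHk 2)
        _ = 2 ^ ((11 * t ^ 8 + 2 * t) * 2 + 2) := by rw [pow_add]; ring
        _ < 2 ^ (25 * t ^ 8 + 1) := Nat.pow_lt_pow_right (by norm_num) (by omega))
    (by
      refine lt_of_lt_of_le ?_ hPprod
      calc 4 * 2 ^ (2 * (60 * t ^ 8) + 3) * (4 * H ^ 2) ^ 2 * H ^ 2
          = 2 ^ (2 * (60 * t ^ 8) + 9) * H ^ 6 := by
            rw [show 2 * (60 * t ^ 8) + 9 = 2 * (60 * t ^ 8) + 3 + 6 by ring, pow_add _ _ 6]; ring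
        _ ≤ 2 ^ (2 * (60 * t ^ 8) + 9) * 2 ^ ((11 * t ^ 8 + 2 * t) * 6) :=
            Nat.mul_le_mul_left _ (hHk 6)
        _ = 2 ^ (2 * (60 * t ^ 8) + 9 + (11 * t ^ 8 + 2 * t) * 6) := by rw [← pow_add]
        _ < 2 ^ (t ^ 9) := Nat.pow_lt_pow_right (by norm_num) (by omega))
    (Nat.pow_le_pow_right (by norm_num) (by omega))
    (by
      calc (4 * H ^ 2) * (2 * H ^ 2) * 2 ^ (t + 1 + 10) = 2 ^ (t + 14) * H ^ 4 := by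
            rw [show t + 14 = t + 1 + 10 + 3 by ring, pow_add _ _ 3]; ring
        _ ≤ 2 ^ (t + 14) * 2 ^ ((11 * t ^ 8 + 2 * t) * 4) := Nat.mul_le_mul_left _ (hHk 4)
        _ = 2 ^ (t + 14 + (11 * t ^ 8 + 2 * t) * 4) := by rw [← pow_add]
        _ ≤ 2 ^ (60 * t ^ 8) := Nat.pow_le_pow_right (by norm_num) (by omega))
    (by
      have g1 : 2 * (2 * H ^ 2 * 2 ^ (t + 2)) + 1 ≤ 2 ^ (t + 5) * H ^ 2 := by
        have g2 : 1 ≤ 2 ^ (t + 4) * H ^ 2 := Nat.mul_pos (by positivity) (by positivity)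
        calc 2 * (2 * H ^ 2 * 2 ^ (t + 2)) + 1 = 2 ^ (t + 4) * H ^ 2 + 1 := by
              rw [show t + 4 = t + 2 + 2 by ring, pow_add _ _ 2]; ring
          _ ≤ 2 ^ (t + 4) * H ^ 2 + 2 ^ (t + 4) * H ^ 2 := by omega
          _ = 2 ^ (t + 5) * H ^ 2 := by rw [pow_succ 2 (t + 4)]; ring
      calc (4 * H ^ 2) * ((4 * H ^ 2) * (4 * H ^ 2)) *
          ((2 * (2 * H ^ 2 * 2 ^ (t + 2)) + 1) * (2 * (2 * H ^ 2 * 2 ^ (t + 2)) + 1))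
          ≤ (4 * H ^ 2) * ((4 * H ^ 2) * (4 * H ^ 2)) *
            ((2 ^ (t + 5) * H ^ 2) * (2 ^ (t + 5) * H ^ 2)) :=
            Nat.mul_le_mul_left _ (Nat.mul_le_mul g1 g1)
        _ = 2 ^ (2 * t + 16) * H ^ 10 := by
            rw [show 2 * t + 16 = (t + 5) + (t + 5) + 6 by ring, pow_add _ _ 6, pow_add]; ring
        _ ≤ 2 ^ (2 * t + 16) * 2 ^ ((11 * t ^ 8 + 2 * t) * 10) := Nat.mul_le_mul_left _ (hHk 10)
        _ = 2 ^ (2 * t + 16 + (11 * t ^ 8 + 2 * t) * 10) := by rw [← pow_add]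
        _ < 2 ^ (124 * t ^ 8) := Nat.pow_lt_pow_right (by norm_num) (by omega))
    (Nat.pow_le_pow_right (by norm_num) (by omega))
    (by
      calc 4 * (2 ^ (9 * t ^ 3)) ^ 2 = 2 ^ (18 * t ^ 3 + 2) := by
            rw [← pow_mul, pow_add]; ring
        _ ≤ 2 ^ (130 * t ^ 8) := Nat.pow_le_pow_right (by norm_num) (by omega))
    (by
      rw [hPc, hP'c]
      have b2 : 2 ^ (3 * (t + 1)) * (124 * t ^ 8) ≤ 2 ^ (9 * t) := by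
        calc 2 ^ (3 * (t + 1)) * (124 * t ^ 8) ≤ 2 ^ (3 * (t + 1)) * 2 ^ t :=
              Nat.mul_le_mul_left _ (by omega)
          _ = 2 ^ (3 * (t + 1) + t) := by rw [← pow_add]
          _ ≤ 2 ^ (9 * t) := Nat.pow_le_pow_right (by norm_num) (by omega)
      have b3 : 2 ^ (9 * t + 11) = 2 ^ (9 * t) * 2048 := by rw [pow_add]; norm_num
      have b4 : 2 ^ t ≤ 2 ^ (9 * t) := Nat.pow_le_pow_right (by norm_num) (by omega)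
      have b5 : 2 ^ (9 * (t + 1)) = 2 ^ (9 * t) * 512 := by
        rw [show 9 * (t + 1) = 9 * t + 9 by ring, pow_add]; norm_num
      omega)
    (by positivity)
    (by rw [hP'c]; omega)
    (hsmall_num2 t ht h1 h22 P hPc)
    (hmu_num2 t ht h22)
  refine ⟨U, hU1, hU2.trans ?_, hU3⟩
  calc 2 ^ (20 * t) * (2 ^ (60 * (t + 1) + 1) * 2 ^ (22 * t) + 1)
      ≤ 2 ^ (20 * t) * (2 ^ (60 * (t + 1) + 1) * 2 ^ (22 * t)
        + 2 ^ (60 * (t + 1) + 1) * 2 ^ (22 * t)) := by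
        have : 1 ≤ 2 ^ (60 * (t + 1) + 1) * 2 ^ (22 * t) := by
          rw [← pow_add]; exact Nat.one_le_two_pow
        exact Nat.mul_le_mul_left _ (by omega)
    _ = 2 ^ (20 * t + (60 * (t + 1) + 1 + 22 * t) + 1) := by
        simp only [pow_add]; ring
    _ = 2 ^ (102 * t + 62) := by congr 1; ring


theorem cover_bound : ∃ t0 : ℕ, ∀ t ≥ t0, ∃ U : Finset ℂ, (∀ u ∈ U, ‖u‖ = 1) ∧
    U.card ≤ 2 ^ (102 * t + 62) ∧
    ∀ z : ℂ, ∃ u ∈ U, Hit (2 * (1 / 2 : ℝ) ^ t) (z * u).re := by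
  have h := (eventually_ge_atTop 400).and ((poly_le_exp 8 2000).and
    ((poly_le_exp 22 (2 ^ 28)).and (supply_small.and supply_big)))
  obtain ⟨t0, ht0⟩ := eventually_atTop.mp h
  exact ⟨t0, fun t ht => cover_at t (ht0 t ht).1 (ht0 t ht).2.1 (ht0 t ht).2.2.1
    (ht0 t ht).2.2.2.1 (ht0 t ht).2.2.2.2⟩

/-- From unit numbers to angles. -/
theorem angles_of_units {δ ε : ℝ} (hδ : δ < ε) (U : Finset ℂ) (hU : ∀ u ∈ U, ‖u‖ = 1)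
    (h : ∀ z : ℂ, ∃ u ∈ U, Hit δ (z * u).re) :
    ∃ Θ : Finset ℝ, Θ.card ≤ U.card ∧ ∀ z : ℂ, ∃ θ ∈ Θ, ∃ w : ℂ,
      z = Complex.exp (θ * I) * w ∧ ∃ k : ℤ, |w.re - k| < ε := by
  classical
  refine ⟨U.image (fun u => -arg u), card_image_le, fun z => ?_⟩
  obtain ⟨u, hu, k, hk⟩ := h z
  refine ⟨-arg u, Finset.mem_image.2 ⟨u, hu, rfl⟩, z * u, ?_, k, hk.trans_lt hδ⟩
  have hnorm := hU u hu
  have hu1 : Complex.exp (arg u * I) = u := by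
    have := norm_mul_exp_arg_mul_I u
    rw [hnorm] at this
    simpa using this
  have hu0 : u ≠ 0 := by
    intro h0
    rw [h0] at hnorm
    simp at hnorm
  have hu2 : Complex.exp (((-arg u : ℝ) : ℂ) * I) = u⁻¹ := by
    rw [Complex.ofReal_neg, neg_mul, Complex.exp_neg, hu1]
  rw [hu2]
  field_simp

/-- The pyjama problem with an explicit exponent: `O(ε ^ (-102))` rotations suffice, for all
`0 < ε ≤ 1`, even for the open strips. -/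
theorem explicit_bound : ∃ K : ℝ, ∀ ε : ℝ, 0 < ε → ε ≤ 1 →
    ∃ Θ : Finset ℝ, (Θ.card : ℝ) ≤ K / ε ^ 102 ∧ ∀ z : ℂ, ∃ θ ∈ Θ, ∃ w : ℂ,
      z = Complex.exp (θ * I) * w ∧ ∃ k : ℤ, |w.re - k| < ε := by
  obtain ⟨t0, h⟩ := cover_bound
  refine ⟨2 ^ (102 * (t0 + 2) + 62) , fun ε hε0 hε1 => ?_⟩
  obtain ⟨n, hn1, hn2⟩ := exists_nat_pow_near_of_lt_one hε0 hε1
    (by norm_num : (0 : ℝ) < 1 / 2) (by norm_num : (1 / 2 : ℝ) < 1)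
  have hδ : (2 : ℝ) * (1 / 2) ^ (n + 2 + t0) < ε := by
    refine lt_of_le_of_lt ?_ hn1
    have h1 : (2 : ℝ) * (1 / 2) ^ (n + 2 + t0) = (1 / 2) ^ (n + 1) * (1 / 2) ^ t0 := by
      rw [pow_add, pow_succ _ (n + 1)]
      ring
    rw [h1]
    exact mul_le_of_le_one_right (by positivity) (pow_le_one₀ (by norm_num) (by norm_num))
  obtain ⟨U, hU1, hU2, hU3⟩ := h (n + 2 + t0) (by omega)
  obtain ⟨Θ, hΘ1, hΘ2⟩ := angles_of_units hδ U hU1 hU3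
  refine ⟨Θ, ?_, hΘ2⟩
  rw [le_div_iff₀ (by positivity)]
  have h2 : (2 : ℝ) ^ n * ε ≤ 1 := by
    calc (2 : ℝ) ^ n * ε ≤ (2 : ℝ) ^ n * (1 / 2 : ℝ) ^ n :=
          mul_le_mul_of_nonneg_left hn2 (by positivity)
      _ = 1 := by rw [← mul_pow]; norm_num
  have h3 : ((2 : ℝ) ^ n * ε) ^ 102 ≤ 1 := pow_le_one₀ (by positivity) h2
  have h4 : (Θ.card : ℝ) ≤ 2 ^ (102 * (t0 + 2) + 62) * ((2 : ℝ) ^ n) ^ 102 := by
    calc (Θ.card : ℝ) ≤ ((2 ^ (102 * (n + 2 + t0) + 62) : ℕ) : ℝ) := by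
          exact_mod_cast hΘ1.trans hU2
      _ = 2 ^ (102 * (t0 + 2) + 62) * ((2 : ℝ) ^ n) ^ 102 := by
          push_cast
          rw [← pow_mul, ← pow_add]
          congr 1
          ring
  calc (Θ.card : ℝ) * ε ^ 102
      ≤ 2 ^ (102 * (t0 + 2) + 62) * ((2 : ℝ) ^ n) ^ 102 * ε ^ 102 :=
        mul_le_mul_of_nonneg_right h4 (by positivity)
    _ = 2 ^ (102 * (t0 + 2) + 62) * ((2 : ℝ) ^ n * ε) ^ 102 := by rw [mul_pow]; ring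
    _ ≤ 2 ^ (102 * (t0 + 2) + 62) * 1 := mul_le_mul_of_nonneg_left h3 (by positivity)
    _ = 2 ^ (102 * (t0 + 2) + 62) := mul_one _

end Pyj
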